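import Pool.Agent.Run7.h795.Degree

/-!
# Splitting a graph of bounded degree

For every `Δ` there is a constant `c < 3/8` such that `cr₂(G) ≤ c cr(G)` for all graphs `G` of
maximum degree at most `Δ`. More generally, it is enough that deleting the edges at the vertices of
degree more than `Δ` leaves a fixed proportion of the crossing number.
-/

set_option autoImplicit false

open Pool.Agent.Helper770.Crossing

/-- The first part is the general inequality, the second one is the case of graphs of maximum degree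
at most `Δ`: `cr₂(G) ≤ (3/8 - 3 / (25088 Δ ^ 6)) cr(G)`. -/
theorem Pool.Agent.Results.MP_79ec0d_co.BoundedDegree.result :
    (∀ (Δ : ℕ), 1 ≤ Δ → ∀ (V : Type) [Fintype V] (G : SimpleGraph V),
      25088 * Δ ^ 6 * crossingNumber G * biplanarCrossingNumber G +
        3 * crossingNumber (G.deleteEdges {e | ∃ v ∈ e, Δ < (G.neighborSet v).ncard}) ^ 2 ≤
        9408 * Δ ^ 6 * crossingNumber G ^ 2) ∧
    (∀ (Δ : ℕ), 1 ≤ Δ → ∀ (V : Type) [Fintype V] (G : SimpleGraph V),
      (∀ v, (G.neighborSet v).ncard ≤ Δ) →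
      (biplanarCrossingNumber G : ℝ) ≤ (3 / 8 - 3 / (25088 * (Δ : ℝ) ^ 6)) * crossingNumber G) := by
  refine ⟨fun Δ hΔ V _ G => Run7.h795.degree_main G Δ hΔ, fun Δ hΔ V _ G hdeg => ?_⟩
  have h := Run7.h795.degree_bounded G Δ hΔ hdeg
  have h1 : 25088 * (Δ : ℝ) ^ 6 * (biplanarCrossingNumber G : ℝ) + 3 * (crossingNumber G : ℝ) ≤
      9408 * (Δ : ℝ) ^ 6 * (crossingNumber G : ℝ) := by exact_mod_cast h
  have hpos : (0 : ℝ) < 25088 * (Δ : ℝ) ^ 6 := by
    have : (0 : ℝ) < Δ := by exact_mod_cast hΔ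
    positivity
  have h2 : (3 / 8 - 3 / (25088 * (Δ : ℝ) ^ 6)) * (crossingNumber G : ℝ) =
      (9408 * (Δ : ℝ) ^ 6 * crossingNumber G - 3 * crossingNumber G) / (25088 * (Δ : ℝ) ^ 6) := by
    field_simp
    ring
  rw [h2, le_div_iff₀ hpos]
  linarith
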