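import Pool.Agent.Run7.h795.Dense

/-!
# Splitting a graph whose crossing number is quadratic in the number of edges

Let `D` be an optimal drawing of `G` (it has `N = cr(G)` crossings) and let `m` be the number of the
edges that are crossed in `D`. Then `cr₂(G) ≤ (3/8) N - N ^ 2 / (208 m ^ 2)`. So the constant
`3/8` can be replaced by `3/8 - δ / 208` for all graphs with `cr(G) ≥ δ |E(G)| ^ 2`.
-/

set_option autoImplicit false

open Pool.Agent.Helper770.Crossing

/-- `208 m² cr₂(G) + N² ≤ 78 m² N`, where `N = cr(G)` and `m` is the number of crossed edges of an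
optimal drawing. -/
theorem Pool.Agent.Results.MP_79ec0d_co.ManyCrossingsPerEdge.result :
    ∀ (V : Type) [Fintype V] (G : SimpleGraph V) (D : Drawing G), D.crossings.Finite →
      D.crossings.ncard = crossingNumber G →
      208 * (Run7.h795.crossedEdges D).ncard ^ 2 * biplanarCrossingNumber G +
        crossingNumber G ^ 2 ≤
          78 * (Run7.h795.crossedEdges D).ncard ^ 2 * crossingNumber G := by
  intro V _ G D hf hopt
  exact Run7.h795.dense_main D hf hopt
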