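import Pool.Agent.Run7.h795.Vertex

/-!
# Splitting a graph into two parts: a bound with the crossing number of a vertex-deleted subgraph

For every finite graph `G` and every vertex `v` of `G` the biplanar crossing number satisfies
`cr₂(G) ≤ cr(G) / 4 + cr(G - v) / 8`. The known bound `3/8 * cr(G)` is the weaker inequality
obtained from `cr(G - v) ≤ cr(G)`.
-/

set_option autoImplicit false

open Pool.Agent.Helper770.Crossing

/-- `8 cr₂(G) ≤ 2 cr(G) + cr(G - v)` for every vertex `v`. -/
theorem Pool.Agent.Results.MP_79ec0d_co.VertexDeletion.result :
    ∀ (V : Type) [Fintype V] (G : SimpleGraph V) (v : V),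
      8 * biplanarCrossingNumber G ≤
        2 * crossingNumber G + crossingNumber (G.deleteIncidenceSet v) := by
  intro V _ G v
  have h := Run7.h795.vertex_gluing G v
  rwa [Run7.h795.sub_eq_delete] at h
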